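import Pool.Agent.K1H9.RP.Stm

/-! # RP-KK: properties of the numbers `TT` (helper24, for project RP of helper9) -/

set_option autoImplicit false

open MeasureTheory ProbabilityTheory Matrix
open scoped BigOperators ENNReal

namespace Pool.Agent.K1H24.RP

open Pool.Agent.K1H9.RP

instance : IsProbabilityMeasure G1 := by
  unfold G1
  infer_instance

theorem Phi_nonneg (t : ℝ) : 0 ≤ Phi t := measureReal_nonneg

theorem Phi_le_one (t : ℝ) : Phi t ≤ 1 := measureReal_le_one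

theorem Phi_pos (t : ℝ) : 0 < Phi t := by
  unfold Phi
  rw [measureReal_def, ENNReal.toReal_pos_iff]
  refine ⟨?_, measure_lt_top _ _⟩
  have h1 : volume ≪ G1 := by
    unfold G1
    exact gaussianReal_absolutelyContinuous' 0 one_ne_zero
  rw [pos_iff_ne_zero]
  intro h2
  have h3 := h1 h2
  rw [Real.volume_Iic] at h3
  exact ENNReal.top_ne_zero h3

theorem Phi_mono : Monotone Phi := by
  intro s t hst
  exact measureReal_mono (Set.Iic_subset_Iic.2 hst)

theorem measurable_chi (D k : ℕ) : Measurable (chi D k) := by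
  unfold chi
  have h1 : Measurable Phi := Phi_mono.measurable
  exact ((h1.comp measurable_neg).pow_const k).mul (h1.pow_const (D - k))

theorem chi_pos (D k : ℕ) (t : ℝ) : 0 < chi D k t :=
  mul_pos (pow_pos (Phi_pos _) _) (pow_pos (Phi_pos _) _)

theorem chi_le_one (D k : ℕ) (t : ℝ) : chi D k t ≤ 1 :=
  mul_le_one₀ (pow_le_one₀ (Phi_nonneg _) (Phi_le_one _)) (pow_nonneg (Phi_nonneg _) _)
    (pow_le_one₀ (Phi_nonneg _) (Phi_le_one _))

theorem chi_symm {D k : ℕ} (hk : k ≤ D) (t : ℝ) : chi D (D - k) t = chi D k (-t) := by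
  unfold chi
  rw [neg_neg, Nat.sub_sub_self hk, mul_comm]

theorem integrable_exp : Integrable fun t : ℝ => Real.exp (-t ^ 2 / 2) := by
  have h := integrable_exp_neg_mul_sq (show (0 : ℝ) < 1 / 2 by norm_num)
  refine h.congr (Filter.Eventually.of_forall fun t => ?_)
  show Real.exp (-(1 / 2) * t ^ 2) = Real.exp (-t ^ 2 / 2)
  congr 1
  ring

/-- the inner integral -/
noncomputable def JJ (n D k : ℕ) (τ : ℝ) : ℝ :=
  ∫ θ : ℝ, chi D k θ * Real.exp (-θ ^ 2 / 2) * psi n τ θ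

theorem psi_le (h2 : S_PSI) {n : ℕ} (hn : 2 ≤ n) (τ θ : ℝ) : psi n τ θ ≤ psi n τ 0 := by
  obtain ⟨-, he, ha, -⟩ := h2 n hn τ
  have h1 : psi n τ θ = psi n τ |θ| := by
    rcases abs_choice θ with h | h <;> rw [h]
    exact (he θ).symm
  rw [h1]
  exact ha.antitoneOn (Set.mem_Ici.2 le_rfl) (Set.mem_Ici.2 (abs_nonneg θ)) (abs_nonneg θ)

theorem integrable_JJ (h2 : S_PSI) {n : ℕ} (hn : 2 ≤ n) (D k : ℕ) (τ : ℝ) :
    Integrable fun θ : ℝ => chi D k θ * Real.exp (-θ ^ 2 / 2) * psi n τ θ := by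
  obtain ⟨hc, he, ha, hp⟩ := h2 n hn τ
  refine (integrable_exp.mul_const (psi n τ 0)).mono' ?_ (Filter.Eventually.of_forall fun θ => ?_)
  · refine ((measurable_chi D k).mul ?_).aestronglyMeasurable.mul hc.aestronglyMeasurable
    fun_prop
  · have e1 := chi_pos D k θ
    have e2 := Real.exp_pos (-θ ^ 2 / 2)
    have e3 := hp θ
    rw [Real.norm_of_nonneg (by positivity)]
    have e4 : chi D k θ * Real.exp (-θ ^ 2 / 2) ≤ Real.exp (-θ ^ 2 / 2) :=
      mul_le_of_le_one_left e2.le (chi_le_one D k θ)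
    exact mul_le_mul e4 (psi_le h2 hn τ θ) e3.le e2.le

theorem integral_pos_of_pos {f : ℝ → ℝ} (hf : Integrable f) (hp : ∀ t, 0 < f t) : 0 < ∫ t, f t := by
  rw [integral_pos_iff_support_of_nonneg (fun t => (hp t).le) hf]
  have : Function.support f = Set.univ := by
    ext t
    simp [(hp t).ne']
  rw [this]
  simp

theorem JJ_pos (h2 : S_PSI) {n : ℕ} (hn : 2 ≤ n) (D k : ℕ) (τ : ℝ) : 0 < JJ n D k τ := by
  obtain ⟨hc, he, ha, hp⟩ := h2 n hn τ
  exact integral_pos_of_pos (integrable_JJ h2 hn D k τ) fun θ =>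
    mul_pos (mul_pos (chi_pos D k θ) (Real.exp_pos _)) (hp θ)

theorem JJ_symm (h2 : S_PSI) {n : ℕ} (hn : 2 ≤ n) {D k : ℕ} (hk : k ≤ D) (τ : ℝ) :
    JJ n D (D - k) τ = JJ n D k τ := by
  obtain ⟨hc, he, ha, hp⟩ := h2 n hn τ
  unfold JJ
  rw [← integral_neg_eq_self (fun θ : ℝ => chi D k θ * Real.exp (-θ ^ 2 / 2) * psi n τ θ)]
  congr 1
  ext θ
  rw [chi_symm hk, he, neg_sq]

theorem t_KK (h1 : S_TAU) (h2 : S_PSI) (h3 : S_CROSS) (h4 : S_QF) (h5 : S_QP) : S_KK := by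
  intro d D j hd hj
  have hn : 2 ≤ d + 1 := by omega
  obtain ⟨C, hC, hT⟩ := h1 d
  obtain ⟨C', hC', hQ⟩ := h4 d
  have hρ : ∀ τ : ℝ, 0 < Real.sqrt (1 + τ ^ 2) := fun τ => Real.sqrt_pos.2 (by positivity)
  have hlt : ∀ τ : ℝ, qq d (d + 1 - j) (Real.sqrt (1 + τ ^ 2)) < qq d j (Real.sqrt (1 + τ ^ 2)) := by
    intro τ
    obtain ⟨i1, e1⟩ := hQ j _ (hρ τ)
    obtain ⟨i2, e2⟩ := hQ (d + 1 - j) _ (hρ τ)
    rw [e1, e2]
    have h6 := h5 d j hj _ (hρ τ) i1 i2
    have h7 : 0 < C' * (((d : ℝ) + 1) * Real.sqrt (1 + τ ^ 2) ^ 2 + 1) := by positivity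
    exact mul_lt_mul_of_pos_left h6 h7
  -- the difference
  have hint : ∀ k, Integrable fun τ : ℝ => (qq d j (Real.sqrt (1 + τ ^ 2)) -
      qq d (d + 1 - j) (Real.sqrt (1 + τ ^ 2))) * JJ (d + 1) D k τ := by
    intro k
    have h6 := ((hT D j k).1).sub ((hT D (d + 1 - j) k).1)
    refine h6.congr (Filter.Eventually.of_forall fun τ => ?_)
    exact (sub_mul (qq d j (Real.sqrt (1 + τ ^ 2))) (qq d (d + 1 - j) (Real.sqrt (1 + τ ^ 2)))
      (JJ (d + 1) D k τ)).symm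
  have hdiff : ∀ k, TT d D j k - TT d D (d + 1 - j) k = C * ∫ τ : ℝ,
      (qq d j (Real.sqrt (1 + τ ^ 2)) - qq d (d + 1 - j) (Real.sqrt (1 + τ ^ 2))) *
        JJ (d + 1) D k τ := by
    intro k
    rw [(hT D j k).2, (hT D (d + 1 - j) k).2, ← mul_sub, ← integral_sub (hT D j k).1 (hT D (d + 1 - j) k).1]
    congr 2
    ext τ
    rw [sub_mul]
    rfl
  refine ⟨fun k _ => ?_, fun i k hk => ?_, fun k hk1 hk2 => ?_⟩
  · have h6 : 0 < TT d D j k - TT d D (d + 1 - j) k := by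
      rw [hdiff]
      exact mul_pos hC (integral_pos_of_pos (hint k) fun τ =>
        mul_pos (sub_pos.2 (hlt τ)) (JJ_pos h2 hn D k τ))
    linarith
  · rw [(hT D i (D - k)).2, (hT D i k).2]
    congr 2
    ext τ
    congr 1
    exact JJ_symm h2 hn hk τ
  · rw [hdiff, hdiff]
    have h6 : 0 < ∫ τ : ℝ, ((D.choose k : ℝ) * ((qq d j (Real.sqrt (1 + τ ^ 2)) -
        qq d (d + 1 - j) (Real.sqrt (1 + τ ^ 2))) * JJ (d + 1) D k τ) -
        (D.choose (k - 1) : ℝ) * ((qq d j (Real.sqrt (1 + τ ^ 2)) -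
        qq d (d + 1 - j) (Real.sqrt (1 + τ ^ 2))) * JJ (d + 1) D (k - 1) τ)) := by
      refine integral_pos_of_pos (((hint k).const_mul _).sub ((hint (k - 1)).const_mul _)) fun τ => ?_
      obtain ⟨hc, he, ha, hp⟩ := h2 (d + 1) hn τ
      have h7 := h3 (psi (d + 1) τ) hc he ha (fun t => (hp t).le) D k hk1 hk2
      have h8 : (D.choose (k - 1) : ℝ) * JJ (d + 1) D (k - 1) τ < (D.choose k : ℝ) * JJ (d + 1) D k τ := h7
      have h9 := mul_lt_mul_of_pos_left h8 (sub_pos.2 (hlt τ))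
      nlinarith [h9]
    rw [integral_sub ((hint k).const_mul _) ((hint (k - 1)).const_mul _), integral_const_mul,
      integral_const_mul] at h6
    have h7 := mul_pos hC h6
    nlinarith [h7]

end Pool.Agent.K1H24.RP
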