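import Pool.Agent.K1H9.RP.Basic

/-! # RP-TAU: second form of the formula for `TT` (helper24, for project RP of helper9) -/

set_option autoImplicit false

open MeasureTheory ProbabilityTheory Matrix
open scoped BigOperators ENNReal

namespace Pool.Agent.K1H24.RP

open Pool.Agent.K1H9.RP

/-! ## Integrability of the determinant -/

theorem integrable_abs_G1 : Integrable (fun y : ℝ => |y|) G1 := by
  unfold G1
  have h : MemLp (id : ℝ → ℝ) 1 (gaussianReal 0 1) := memLp_id_gaussianReal 1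
  exact (memLp_one_iff_integrable.1 h).abs

theorem integrable_eval {d : ℕ} (l : Fin d) : Integrable (fun y : Fin d → ℝ => |y l|) (gv (Fin d)) := by
  unfold gv
  have h := (measurePreserving_eval (fun _ : Fin d => G1) l)
  exact h.integrable_comp_of_integrable integrable_abs_G1

theorem integrable_det (d : ℕ) :
    Integrable (fun Y : Fin (d + 1) → Fin d → ℝ => |(BM Y).det|) (gp (Fin (d + 1)) d) := by
  have hu : Integrable (fun y : Fin d → ℝ => 1 + ∑ l, |y l|) (gv (Fin d)) :=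
    (integrable_const _).add (integrable_finsetSum _ fun l _ => integrable_eval l)
  have hprod : Integrable (fun Y : Fin (d + 1) → Fin d → ℝ => ∏ i, (1 + ∑ l, |Y i l|))
      (gp (Fin (d + 1)) d) := by
    unfold gp
    exact Integrable.fintype_prod (f := fun _ : Fin (d + 1) => fun y : Fin d → ℝ => 1 + ∑ l, |y l|)
      fun _ => hu
  refine (hprod.const_mul ((d + 1).factorial : ℝ)).mono'
    continuous_det_BM.abs.aestronglyMeasurable (Filter.Eventually.of_forall fun Y => ?_)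
  rw [Real.norm_of_nonneg (abs_nonneg _), Matrix.det_apply]
  have hentry : ∀ i j, |(BM Y) i j| ≤ 1 + ∑ l, |Y i l| := by
    intro i j
    rw [BM_apply]
    refine Fin.cases ?_ (fun c => ?_) j
    · rw [hom_zero, abs_one]
      have : 0 ≤ ∑ l, |Y i l| := Finset.sum_nonneg fun l _ => abs_nonneg _
      linarith
    · rw [hom_succ]
      have : |Y i c| ≤ ∑ l, |Y i l| :=
        Finset.single_le_sum (f := fun l => |Y i l|) (fun l _ => abs_nonneg _) (Finset.mem_univ c)
      linarith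
  calc |∑ σ : Equiv.Perm (Fin (d + 1)), Equiv.Perm.sign σ • ∏ i, (BM Y) (σ i) i|
      ≤ ∑ σ : Equiv.Perm (Fin (d + 1)), |Equiv.Perm.sign σ • ∏ i, (BM Y) (σ i) i| :=
        Finset.abs_sum_le_sum_abs _ _
    _ ≤ ∑ σ : Equiv.Perm (Fin (d + 1)), ∏ i, (1 + ∑ l, |Y i l|) := by
        apply Finset.sum_le_sum
        intro σ _
        have h1 : |Equiv.Perm.sign σ • ∏ i, (BM Y) (σ i) i| = ∏ i, |(BM Y) (σ i) i| := by
          rw [← Finset.abs_prod]
          rcases Int.units_eq_one_or (Equiv.Perm.sign σ) with h | h <;> rw [h] <;> simp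
        rw [h1]
        calc ∏ i, |(BM Y) (σ i) i| ≤ ∏ i, (1 + ∑ l, |Y (σ i) l|) :=
              Finset.prod_le_prod (fun i _ => abs_nonneg _) fun i _ => hentry _ _
          _ = ∏ i, (1 + ∑ l, |Y i l|) := Equiv.prod_comp σ fun i => 1 + ∑ l, |Y i l|
    _ = ((d + 1).factorial : ℝ) * ∏ i, (1 + ∑ l, |Y i l|) := by
        rw [Finset.sum_const, Finset.card_univ, Fintype.card_perm, Fintype.card_fin, nsmul_eq_mul]

/-! ## `qq` -/

theorem qq_nonneg (d j : ℕ) (ρ : ℝ) : 0 ≤ qq d j ρ :=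
  integral_nonneg fun Y => mul_nonneg (abs_nonneg _) measureReal_nonneg

theorem qq_le (d j : ℕ) (ρ : ℝ) : qq d j ρ ≤
    ∫ Y : Fin (d + 1) → Fin d → ℝ, |(BM Y).det| ∂(gp (Fin (d + 1)) d) := by
  unfold qq
  refine integral_mono_of_nonneg (Filter.Eventually.of_forall fun _ =>
    mul_nonneg (abs_nonneg _) measureReal_nonneg) (integrable_det d)
    (Filter.Eventually.of_forall fun Y => ?_)
  exact mul_le_of_le_one_right (abs_nonneg _) measureReal_le_one

theorem measurable_real (d j : ℕ) : Measurable fun q : ℝ × (Fin (d + 1) → Fin d → ℝ) =>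
    (gv (Fin d)).real {g | pat j (bary q.2 (q.1 • g))} := by
  have h1 : MeasurableSet {q : (ℝ × (Fin (d + 1) → Fin d → ℝ)) × (Fin d → ℝ) |
      pat j (bary q.1.2 (q.1.1 • q.2))} := by
    have h2 : Measurable fun q : (ℝ × (Fin (d + 1) → Fin d → ℝ)) × (Fin d → ℝ) =>
        (q.1.2, q.1.1 • q.2) := by fun_prop
    exact h2 (measurableSet_pat_bary j)
  exact (measurable_measure_prodMk_left h1).ennreal_toReal

theorem measurable_qq (d j : ℕ) : Measurable (qq d j) := by
  have h1 : StronglyMeasurable fun q : ℝ × (Fin (d + 1) → Fin d → ℝ) =>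
      |(BM q.2).det| * (gv (Fin d)).real {g | pat j (bary q.2 (q.1 • g))} := by
    refine Measurable.stronglyMeasurable ?_
    exact ((continuous_det_BM.abs.measurable).comp measurable_snd).mul (measurable_real d j)
  exact (h1.integral_prod_right' (ν := gp (Fin (d + 1)) d)).measurable

/-! ## Change of variables -/

/-- the Gaussian density -/
noncomputable def gd (y : ℝ) : ℝ := (Real.sqrt (2 * Real.pi))⁻¹ * Real.exp (-(y ^ 2) / 2)

theorem gd_pos (y : ℝ) : 0 < gd y := by unfold gd; positivity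

theorem measurable_gd : Measurable gd := by unfold gd; fun_prop

theorem lintegral_G1 (f : ℝ → ℝ≥0∞) (hf : Measurable f) :
    ∫⁻ y, f y ∂G1 = ∫⁻ y, ENNReal.ofReal (gd y) * f y := by
  rw [G1_eq, lintegral_withDensity_eq_lintegral_mul _ (by fun_prop) hf]
  rfl

theorem subst (θ η : ℝ) (hη : η ≠ 0) (F : ℝ → ℝ≥0∞) (hF : Measurable F) :
    ∫⁻ ζ, F ζ = ENNReal.ofReal |η| * ∫⁻ τ, F (θ - τ * η) := by
  have h1 : ∫⁻ τ, F (θ - τ * η) = ENNReal.ofReal |η⁻¹| * ∫⁻ y, F (θ - y) := by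
    have h2 : Measurable fun y => F (θ - y) := hF.comp (measurable_const.sub measurable_id)
    have h3 := Real.map_volume_mul_right hη
    have h4 : ∫⁻ τ, F (θ - τ * η) = ∫⁻ y, F (θ - y) ∂(Measure.map (· * η) volume) := by
      rw [lintegral_map h2 (by fun_prop : Measurable fun x : ℝ => x * η)]
    rw [h4, h3, lintegral_smul_measure, smul_eq_mul]
  rw [h1, lintegral_sub_left_eq_self F θ, ← mul_assoc, ← ENNReal.ofReal_mul (abs_nonneg _), ← abs_mul,
    mul_inv_cancel₀ hη, abs_one, ENNReal.ofReal_one, one_mul]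

/-- the kernel before integration over `η` -/
noncomputable def kk (τ θ η : ℝ) : ℝ := |η| * Real.exp (-η ^ 2 / 2 - (θ - τ * η) ^ 2 / 2)

theorem kk_nonneg (τ θ η : ℝ) : 0 ≤ kk τ θ η := by unfold kk; positivity

theorem gd_gd (τ θ η : ℝ) : gd η * (|η| * gd (θ - τ * η)) =
    (Real.sqrt (2 * Real.pi))⁻¹ ^ 2 * kk τ θ η := by
  unfold gd kk
  rw [sub_eq_add_neg (-η ^ 2 / 2), Real.exp_add, ← neg_div 2 ((θ - τ * η) ^ 2)]
  ring_nf

theorem LI (h : ℝ → ℝ≥0∞) (hh : Measurable h) (θ : ℝ) :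
    ∫⁻ ζ, ∫⁻ η, h ((θ - ζ) / η) ∂G1 ∂G1 =
      ∫⁻ τ, h τ * ∫⁻ η, ENNReal.ofReal ((Real.sqrt (2 * Real.pi))⁻¹ ^ 2 * kk τ θ η) := by
  have hm1 : Measurable fun q : ℝ × ℝ => h ((θ - q.1) / q.2) :=
    hh.comp ((measurable_const.sub measurable_fst).div measurable_snd)
  have hm1' : Measurable fun q : ℝ × ℝ => h ((θ - q.2) / q.1) :=
    hh.comp ((measurable_const.sub measurable_snd).div measurable_fst)
  rw [lintegral_lintegral_swap (f := fun ζ η => h ((θ - ζ) / η)) hm1.aemeasurable]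
  have e1 : ∫⁻ η, ∫⁻ ζ, h ((θ - ζ) / η) ∂G1 ∂G1 =
      ∫⁻ η, ENNReal.ofReal (gd η) * ∫⁻ ζ, ENNReal.ofReal (gd ζ) * h ((θ - ζ) / η) := by
    rw [lintegral_G1 _ hm1'.lintegral_prod_right']
    refine lintegral_congr fun η => ?_
    have hmη : Measurable fun ζ : ℝ => h ((θ - ζ) / η) :=
      hm1'.comp (measurable_const.prodMk measurable_id : Measurable fun ζ : ℝ => (η, ζ))
    have := lintegral_G1 (fun ζ : ℝ => h ((θ - ζ) / η)) hmη
    exact congrArg (fun t => ENNReal.ofReal (gd η) * t) this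
  rw [e1]
  have e2 : ∫⁻ η, ENNReal.ofReal (gd η) * ∫⁻ ζ, ENNReal.ofReal (gd ζ) * h ((θ - ζ) / η) =
      ∫⁻ η, ∫⁻ τ, h τ * ENNReal.ofReal ((Real.sqrt (2 * Real.pi))⁻¹ ^ 2 * kk τ θ η) := by
    refine lintegral_congr_ae ?_
    have h0 : ∀ᵐ η : ℝ, η ≠ 0 := by
      rw [ae_iff]
      simp
    filter_upwards [h0] with η hη
    rw [subst θ η hη (fun ζ => ENNReal.ofReal (gd ζ) * h ((θ - ζ) / η))
      ((measurable_gd.ennreal_ofReal).mul (hm1'.comp (measurable_const.prodMk measurable_id))),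
      ← mul_assoc, ← lintegral_const_mul]
    · refine lintegral_congr fun τ => ?_
      have h1 : (θ - (θ - τ * η)) / η = τ := by field_simp; ring
      rw [h1, ← gd_gd, ENNReal.ofReal_mul (gd_pos η).le, ENNReal.ofReal_mul (abs_nonneg η)]
      ring
    · have h2 : Measurable fun τ : ℝ => θ - τ * η := measurable_const.sub (measurable_id.mul_const η)
      have h3 : Measurable fun τ : ℝ => (θ - (θ - τ * η)) / η := by fun_prop
      exact ((measurable_gd.comp h2).ennreal_ofReal).mul (hh.comp h3)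
  rw [e2, lintegral_lintegral_swap]
  · refine lintegral_congr fun τ => ?_
    rw [lintegral_const_mul]
    unfold kk
    fun_prop
  · refine Measurable.aemeasurable ?_
    refine (hh.comp measurable_snd).mul ?_
    unfold kk
    fun_prop

/-! ## The kernel -/

noncomputable def KK (τ θ : ℝ) : ℝ := ∫ η : ℝ, kk τ θ η

theorem integrable_mul_exp : Integrable fun η : ℝ => |η| * Real.exp (-η ^ 2 / 2) := by
  have h := (integrable_mul_exp_neg_mul_sq (show (0 : ℝ) < 1 / 2 by norm_num)).abs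
  refine h.congr (Filter.Eventually.of_forall fun t => ?_)
  show |t * Real.exp (-(1 / 2) * t ^ 2)| = |t| * Real.exp (-t ^ 2 / 2)
  rw [abs_mul, abs_of_pos (Real.exp_pos _)]
  congr 2
  ring

theorem kk_le (τ θ η : ℝ) : kk τ θ η ≤ |η| * Real.exp (-η ^ 2 / 2) := by
  unfold kk
  refine mul_le_mul_of_nonneg_left (Real.exp_le_exp.2 ?_) (abs_nonneg _)
  have : 0 ≤ (θ - τ * η) ^ 2 / 2 := by positivity
  linarith

theorem measurable_kk : Measurable fun q : (ℝ × ℝ) × ℝ => kk q.1.1 q.1.2 q.2 := by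
  unfold kk
  fun_prop

theorem integrable_kk (τ θ : ℝ) : Integrable (kk τ θ) := by
  refine integrable_mul_exp.mono' ?_ (Filter.Eventually.of_forall fun η => ?_)
  · refine Measurable.aestronglyMeasurable ?_
    unfold kk
    fun_prop
  · rw [Real.norm_of_nonneg (kk_nonneg _ _ _)]
    exact kk_le τ θ η

theorem KK_nonneg (τ θ : ℝ) : 0 ≤ KK τ θ := integral_nonneg fun η => kk_nonneg τ θ η

theorem KK_le (τ θ : ℝ) : KK τ θ ≤ ∫ η : ℝ, |η| * Real.exp (-η ^ 2 / 2) :=
  integral_mono (integrable_kk τ θ) integrable_mul_exp fun η => kk_le τ θ η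

theorem measurable_KK : Measurable fun q : ℝ × ℝ => KK q.1 q.2 :=
  (measurable_kk.stronglyMeasurable.integral_prod_right' (ν := volume)).measurable

theorem lint_kk (c : ℝ) (hc : 0 ≤ c) (τ θ : ℝ) :
    ∫⁻ η, ENNReal.ofReal (c * kk τ θ η) = ENNReal.ofReal (c * KK τ θ) := by
  unfold KK
  rw [← integral_const_mul, ofReal_integral_eq_lintegral_ofReal ((integrable_kk τ θ).const_mul c)
    (Filter.Eventually.of_forall fun η => mul_nonneg hc (kk_nonneg _ _ _))]

/-! ## The formula -/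

theorem t_TAU (hTF : S_TF) : S_TAU := by
  intro d
  obtain ⟨C, hC, hTT⟩ := hTF d
  obtain ⟨c, hc⟩ : ∃ c : ℝ, c = (Real.sqrt (2 * Real.pi))⁻¹ ^ 2 := ⟨_, rfl⟩
  have hc0 : 0 < c := by rw [hc]; positivity
  refine ⟨C * c, by positivity, fun D j k => ?_⟩
  -- the function of the slope
  obtain ⟨h, hh⟩ : ∃ h : ℝ → ℝ, h = fun τ => qq d j (Real.sqrt (1 + τ ^ 2)) := ⟨_, rfl⟩
  have hhm : Measurable h := by
    rw [hh]
    exact (measurable_qq d j).comp (by fun_prop)
  have hh0 : ∀ τ, 0 ≤ h τ := fun τ => by rw [hh]; exact qq_nonneg _ _ _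
  obtain ⟨B, hB⟩ : ∃ B : ℝ, ∀ τ, h τ ≤ B := ⟨_, fun τ => by rw [hh]; exact qq_le d j _⟩
  have hB0 : 0 ≤ B := (hh0 0).trans (hB 0)
  -- the weight
  obtain ⟨w, hw⟩ : ∃ w : ℝ → ℝ, w = fun θ => Real.exp (-((d : ℝ) + 1) * θ ^ 2 / 2) * chi D k θ := ⟨_, rfl⟩
  have hwm : Measurable w := by
    rw [hw]
    exact (by fun_prop : Measurable fun θ : ℝ => Real.exp (-((d : ℝ) + 1) * θ ^ 2 / 2)).mul
      (measurable_chi D k)
  have hw0 : ∀ θ, 0 ≤ w θ := fun θ => by rw [hw]; exact mul_nonneg (Real.exp_pos _).le (chi_nonneg _ _ _)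
  have hwi : Integrable w := by
    have h1 : Integrable fun θ : ℝ => Real.exp (-((d : ℝ) + 1) * θ ^ 2 / 2) := by
      have h2 := integrable_exp_neg_mul_sq (show (0 : ℝ) < ((d : ℝ) + 1) / 2 by positivity)
      refine h2.congr (Filter.Eventually.of_forall fun θ => ?_)
      show Real.exp (-(((d : ℝ) + 1) / 2) * θ ^ 2) = Real.exp (-((d : ℝ) + 1) * θ ^ 2 / 2)
      congr 1
      ring
    refine h1.mono' hwm.aestronglyMeasurable (Filter.Eventually.of_forall fun θ => ?_)
    rw [Real.norm_of_nonneg (hw0 θ), hw]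
    exact mul_le_of_le_one_right (Real.exp_pos _).le (chi_le_one _ _ _)
  -- the inner average
  obtain ⟨I, hI⟩ : ∃ I : ℝ → ℝ, I = fun θ => ∫ ζ, ∫ η, h ((θ - ζ) / η) ∂G1 ∂G1 := ⟨_, rfl⟩
  have hin : ∀ θ ζ, Integrable (fun η => h ((θ - ζ) / η)) G1 := by
    intro θ ζ
    refine (integrable_const B).mono' ?_ (Filter.Eventually.of_forall fun η => ?_)
    · exact (hhm.comp (by fun_prop : Measurable fun η : ℝ => (θ - ζ) / η)).aestronglyMeasurable
    · rw [Real.norm_of_nonneg (hh0 _)]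
      exact hB _
  have hin0 : ∀ θ ζ, 0 ≤ ∫ η, h ((θ - ζ) / η) ∂G1 := fun θ ζ => integral_nonneg fun η => hh0 _
  have hinB : ∀ θ ζ, ∫ η, h ((θ - ζ) / η) ∂G1 ≤ B := by
    intro θ ζ
    have h1 := integral_mono (hin θ ζ) (integrable_const B) fun η => hB ((θ - ζ) / η)
    simpa using h1
  have hout : ∀ θ, Integrable (fun ζ => ∫ η, h ((θ - ζ) / η) ∂G1) G1 := by
    intro θ
    refine (integrable_const B).mono' ?_ (Filter.Eventually.of_forall fun ζ => ?_)
    · have h1 : Measurable fun q : ℝ × ℝ => h ((θ - q.1) / q.2) :=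
        hhm.comp ((measurable_const.sub measurable_fst).div measurable_snd)
      exact (h1.stronglyMeasurable.integral_prod_right' (ν := G1)).aestronglyMeasurable
    · rw [Real.norm_of_nonneg (hin0 θ ζ)]
      exact hinB θ ζ
  have hI0 : ∀ θ, 0 ≤ I θ := fun θ => by rw [hI]; exact integral_nonneg fun ζ => hin0 θ ζ
  have hIB : ∀ θ, I θ ≤ B := by
    intro θ
    rw [hI]
    have h1 := integral_mono (hout θ) (integrable_const B) fun ζ => hinB θ ζ
    simpa using h1
  have hIL : ∀ θ, ENNReal.ofReal (I θ) = ∫⁻ τ, ENNReal.ofReal (h τ * (c * KK τ θ)) := by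
    intro θ
    rw [hI]
    show ENNReal.ofReal (∫ ζ, ∫ η, h ((θ - ζ) / η) ∂G1 ∂G1) = _
    rw [ofReal_integral_eq_lintegral_ofReal (hout θ) (Filter.Eventually.of_forall fun ζ => hin0 θ ζ)]
    have h1 : ∀ ζ, ENNReal.ofReal (∫ η, h ((θ - ζ) / η) ∂G1) =
        ∫⁻ η, ENNReal.ofReal (h ((θ - ζ) / η)) ∂G1 := fun ζ =>
      ofReal_integral_eq_lintegral_ofReal (hin θ ζ) (Filter.Eventually.of_forall fun η => hh0 _)
    simp_rw [h1]
    rw [LI (fun x => ENNReal.ofReal (h x)) hhm.ennreal_ofReal θ]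
    refine lintegral_congr fun τ => ?_
    rw [← hc, lint_kk c hc0.le, ENNReal.ofReal_mul (hh0 τ)]
  have hm2 : Measurable fun q : ℝ × ℝ => h q.2 * (c * KK q.2 q.1) :=
    (hhm.comp measurable_snd).mul (measurable_const.mul
      (measurable_KK.comp (measurable_snd.prodMk measurable_fst)))
  have hIm : Measurable I := by
    have h1 : Measurable fun θ => ENNReal.ofReal (I θ) := by
      simp_rw [hIL]
      exact hm2.ennreal_ofReal.lintegral_prod_right'
    have h2 : I = fun θ => (ENNReal.ofReal (I θ)).toReal := by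
      funext θ
      rw [ENNReal.toReal_ofReal (hI0 θ)]
    rw [h2]
    exact h1.ennreal_toReal
  -- the inner integral over `θ`
  obtain ⟨J, hJ⟩ : ∃ J : ℝ → ℝ, J = fun τ => ∫ θ, w θ * KK τ θ := ⟨_, rfl⟩
  have hJeq : ∀ τ, J τ = ∫ θ : ℝ, chi D k θ * Real.exp (-θ ^ 2 / 2) * psi (d + 1) τ θ := by
    intro τ
    rw [hJ, hw]
    refine integral_congr_ae (Filter.Eventually.of_forall fun θ => ?_)
    show Real.exp (-((d : ℝ) + 1) * θ ^ 2 / 2) * chi D k θ * KK τ θ =
      chi D k θ * Real.exp (-θ ^ 2 / 2) * psi (d + 1) τ θ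
    unfold psi
    have h1 : Real.exp (-((d : ℝ) + 1) * θ ^ 2 / 2) =
        Real.exp (-θ ^ 2 / 2) * Real.exp (-(((d + 1 : ℕ) : ℝ) - 1) * θ ^ 2 / 2) := by
      rw [← Real.exp_add]
      congr 1
      push_cast
      ring
    rw [h1]
    unfold KK kk
    ring
  have hKint : ∀ τ, Integrable fun θ => w θ * KK τ θ := by
    intro τ
    refine (hwi.mul_const (∫ η : ℝ, |η| * Real.exp (-η ^ 2 / 2))).mono' ?_
      (Filter.Eventually.of_forall fun θ => ?_)
    · exact (hwm.mul (measurable_KK.comp (measurable_const.prodMk measurable_id :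
        Measurable fun θ : ℝ => (τ, θ)))).aestronglyMeasurable
    · rw [Real.norm_of_nonneg (mul_nonneg (hw0 θ) (KK_nonneg τ θ))]
      exact mul_le_mul_of_nonneg_left (KK_le τ θ) (hw0 θ)
  have hJ0 : ∀ τ, 0 ≤ J τ := fun τ => by
    rw [hJ]; exact integral_nonneg fun θ => mul_nonneg (hw0 θ) (KK_nonneg τ θ)
  have hm3 : Measurable fun q : ℝ × ℝ => w q.2 * KK q.1 q.2 :=
    (hwm.comp measurable_snd).mul measurable_KK
  have hJm : Measurable J := by
    rw [hJ]
    exact (hm3.stronglyMeasurable.integral_prod_right' (ν := volume)).measurable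
  have hJL : ∀ τ, ENNReal.ofReal (c * J τ) = ∫⁻ θ, ENNReal.ofReal (w θ * (c * KK τ θ)) := by
    intro τ
    have h1 : c * J τ = ∫ θ, w θ * (c * KK τ θ) := by
      rw [hJ]
      show c * ∫ θ, w θ * KK τ θ = _
      rw [← integral_const_mul]
      refine integral_congr_ae (Filter.Eventually.of_forall fun θ => ?_)
      show c * (w θ * KK τ θ) = w θ * (c * KK τ θ)
      ring
    rw [h1]
    refine ofReal_integral_eq_lintegral_ofReal ?_ (Filter.Eventually.of_forall fun θ =>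
      mul_nonneg (hw0 θ) (mul_nonneg hc0.le (KK_nonneg τ θ)))
    refine ((hKint τ).const_mul c).congr (Filter.Eventually.of_forall fun θ => ?_)
    show c * (w θ * KK τ θ) = w θ * (c * KK τ θ)
    ring
  -- the total mass
  have hwI : Integrable fun θ => w θ * I θ := by
    refine (hwi.mul_const B).mono' (hwm.mul hIm).aestronglyMeasurable
      (Filter.Eventually.of_forall fun θ => ?_)
    rw [Real.norm_of_nonneg (mul_nonneg (hw0 θ) (hI0 θ))]
    exact mul_le_mul_of_nonneg_left (hIB θ) (hw0 θ)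
  have hA : ENNReal.ofReal (∫ θ, w θ * I θ) = ∫⁻ τ, ENNReal.ofReal (h τ * (c * J τ)) := by
    rw [ofReal_integral_eq_lintegral_ofReal hwI (Filter.Eventually.of_forall fun θ =>
      mul_nonneg (hw0 θ) (hI0 θ))]
    have e1 : ∀ θ, ENNReal.ofReal (w θ * I θ) =
        ∫⁻ τ, ENNReal.ofReal (w θ) * ENNReal.ofReal (h τ * (c * KK τ θ)) := by
      intro θ
      rw [ENNReal.ofReal_mul (hw0 θ), hIL, lintegral_const_mul]
      exact (hm2.comp (measurable_const.prodMk measurable_id : Measurable fun τ : ℝ => (θ, τ))).ennreal_ofReal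
    simp_rw [e1]
    rw [lintegral_lintegral_swap
      (((hwm.comp measurable_fst).ennreal_ofReal.mul hm2.ennreal_ofReal).aemeasurable)]
    refine lintegral_congr fun τ => ?_
    rw [ENNReal.ofReal_mul (hh0 τ), hJL, ← lintegral_const_mul]
    · refine lintegral_congr fun θ => ?_
      rw [ENNReal.ofReal_mul (hh0 τ), ENNReal.ofReal_mul (hw0 θ)]
      ring
    · exact (hwm.mul (measurable_const.mul (measurable_KK.comp
        (measurable_const.prodMk measurable_id : Measurable fun θ : ℝ => (τ, θ))))).ennreal_ofReal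
  have hfin : Integrable fun τ => h τ * (c * J τ) := by
    refine ⟨(hhm.mul (hJm.const_mul c)).aestronglyMeasurable, ?_⟩
    rw [hasFiniteIntegral_iff_ofReal (Filter.Eventually.of_forall fun τ =>
      mul_nonneg (hh0 τ) (mul_nonneg hc0.le (hJ0 τ))), ← hA]
    exact ENNReal.ofReal_lt_top
  have hval : ∫ θ, w θ * I θ = ∫ τ, h τ * (c * J τ) := by
    have h1 : ENNReal.ofReal (∫ θ, w θ * I θ) = ENNReal.ofReal (∫ τ, h τ * (c * J τ)) := by
      rw [hA, ofReal_integral_eq_lintegral_ofReal hfin (Filter.Eventually.of_forall fun τ =>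
        mul_nonneg (hh0 τ) (mul_nonneg hc0.le (hJ0 τ)))]
    exact (ENNReal.ofReal_eq_ofReal_iff (integral_nonneg fun θ => mul_nonneg (hw0 θ) (hI0 θ))
      (integral_nonneg fun τ => mul_nonneg (hh0 τ) (mul_nonneg hc0.le (hJ0 τ)))).1 h1
  constructor
  · have h1 := hfin.const_mul c⁻¹
    refine h1.congr (Filter.Eventually.of_forall fun τ => ?_)
    show c⁻¹ * (h τ * (c * J τ)) = qq d j (Real.sqrt (1 + τ ^ 2)) * _
    rw [← hJeq τ, hh]
    field_simp
  · rw [hTT D j k]
    have h1 : ∫ θ : ℝ, Real.exp (-((d : ℝ) + 1) * θ ^ 2 / 2) * chi D k θ *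
        ∫ ζ, ∫ η, qq d j (Real.sqrt (1 + ((θ - ζ) / η) ^ 2)) ∂G1 ∂G1 = ∫ θ, w θ * I θ := by
      rw [hw, hI, hh]
    have h2 : ∫ τ : ℝ, qq d j (Real.sqrt (1 + τ ^ 2)) *
        ∫ θ : ℝ, chi D k θ * Real.exp (-θ ^ 2 / 2) * psi (d + 1) τ θ = c⁻¹ * ∫ τ, h τ * (c * J τ) := by
      rw [← integral_const_mul]
      refine integral_congr_ae (Filter.Eventually.of_forall fun τ => ?_)
      show qq d j (Real.sqrt (1 + τ ^ 2)) * _ = c⁻¹ * (h τ * (c * J τ))
      rw [← hJeq τ, hh]
      field_simp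
    rw [h1, h2, hval, mul_assoc, ← mul_assoc c c⁻¹, mul_inv_cancel₀ hc0.ne', one_mul]

end Pool.Agent.K1H24.RP
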